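import Pool.Agent.Helper99.DF.All

/-!
# Infinite log-concavity of P-recursive sequences with finite support is decidable

`Inp`: the inputs of the problem (lists of integer coefficients of the polynomials `p_0, ..., p_d`, and
the initial values).  `Std x`: `d` initial values and `p_d(n) ≠ 0` for all `n`.  `Sol x a`: the sequence
`a` satisfies the recurrence and has the given initial values.  `LC`: the log-concavity operator.
`InfLC a`: all iterates of `a` (including `a`) are nonnegative.

Proof: the iterates, normalised by their double exponential growth rates, decrease to algebraic limits;
they have expansions in doubly exponentially small quantities with coefficients in a number field; by a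
counting argument the ratios `a_(k-1) a_(k+1) / a_k^2` satisfy polynomial relations at all late times, which
can be certified by finitely many polynomial identities because polynomial rings are Noetherian; together
with boxes around the limits and empty shells around the boxes these give finite certificates which are
sound and complete.
-/

set_option autoImplicit false

namespace Pool.Agent.Results.MP_d49380_lc.FiniteSupportDecidable

open Pool.Agent.Helper4.IL

/-- One algorithm `g` (a computable function, possibly not total): its answers are correct, it halts whenever the
sequence is eventually zero, and it halts whenever the sequence is not infinitely log-concave. -/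
theorem result : ∃ g : Inp →. Bool, Partrec g ∧ ∀ x : Inp, Std x → ∀ a : ℕ → ℚ, Sol x a →
    (∀ β ∈ g x, (β = true ↔ InfLC a)) ∧
    ((∃ N, ∀ n, N ≤ n → a n = 0) → (g x).Dom) ∧ (¬ InfLC a → (g x).Dom) :=
  Pool.Agent.Helper99.DF.fin_all

end Pool.Agent.Results.MP_d49380_lc.FiniteSupportDecidable
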