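import Pool.Agent.Helper6.O3.All2

/-!
# Infinitely log-concave sequences with an eventual recurrence of order three: the classification

`LCR b m = b_m^2 - b_(m-1) b_(m+1)`, `b_(-1) = 0`, for real sequences.  `InfLCR a`: all iterates of `a` are
nonnegative.  `hh α β γ n`: the complete homogeneous polynomial `∑_(i+j+k = n) α^i β^j γ^k`.

Proof: with `c = (0, 0, a_0, a_1, ...)`, `T c k = c_k^2 - c_(k-1) c_(k+1)` and `Θ_k` the 3 x 3 Toeplitz minors,
`T (T c) k = c_k Θ_k`, and `Θ_k = K r^k` along the tail.  RIGIDITY: if `c` is infinitely log-concave then after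
its last pair of zeros `T (T c) k = K r^k c_k` everywhere, since otherwise the difference of the two sides,
transported by the iterates, would grow faster than the iterates.  So the recurrence holds from the last pair of
zeros on.  If no later pair of zeros exists, the characteristic roots are real and positive; the periodic case
is the second family.
-/

set_option autoImplicit false

namespace Pool.Agent.Results.MP_d49380_lc.OrderThreeClassification

open Pool.Agent.Helper6.O3

/-- The classification over the reals. -/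
theorem result (a : ℕ → ℝ) (p q r : ℝ) (N : ℕ)
    (hrec : ∀ n, N ≤ n → a (n + 3) = p * a (n + 2) + q * a (n + 1) + r * a n)
    (hmin : ∀ n, N ≤ n → a (n + 2) ^ 3 - 2 * (a (n + 1) * a (n + 2) * a (n + 3)) + a (n + 3) ^ 2 * a n +
      a (n + 4) * a (n + 1) ^ 2 - a (n + 2) * a n * a (n + 4) ≠ 0) :
    InfLCR a ↔ ∃ (m : ℕ) (A : ℝ), 0 < A ∧ (∀ k, k < m → m ≤ k + 2 → a k = 0) ∧
      InfLCR (fun k => if k < m then a k else 0) ∧
      ((∃ α β γ : ℝ, 0 < α ∧ 0 < β ∧ 0 < γ ∧ ∀ n, a (m + n) = A * hh α β γ n) ∨
        (∃ (α : ℝ) (P : ℕ), 0 < α ∧ 3 ≤ P ∧ ∀ n : ℕ, a (m + n) = A * α ^ n *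
          (Real.sin (((n : ℝ) + 1) * (Real.pi / P)) * Real.sin (((n : ℝ) + 2) * (Real.pi / P))))) :=
  o3_cl a p q r N hrec hmin

end Pool.Agent.Results.MP_d49380_lc.OrderThreeClassification
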