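import Pool.Agent.Helper6.O3.All

/-!
# Infinite log-concavity is decidable for sequences with an eventual recurrence of order three

`Inp`: the inputs of the problem (lists of integer coefficients of the polynomials `p_0, ..., p_d`, and
the initial values).  `Std x`: `d` initial values and `p_d(n) ≠ 0` for all `n`.  `Sol x a`: the sequence
`a` satisfies the recurrence and has the given initial values.  `LC`: the log-concavity operator.
`InfLC a`: all iterates of `a` (including `a`) are nonnegative.

Proof: let `c = (0, 0, a_0, a_1, ...)`, `T c k = c_k^2 - c_(k-1) c_(k+1)` and let `Θ_k` be the 3 x 3 Toeplitz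
minors.  `T (T c) k = c_k Θ_k`, and `Θ_k = K r^k` for large `k`.  If `K r ≠ 0` the tail is reproduced by `T^2` up to
scaling.  RIGIDITY: if `c` is infinitely log-concave then after its last zero `T (T c) k = K r^k c_k` everywhere:
otherwise the difference of the two sides at the last bad site, transported by the iterates, grows faster
than the iterates themselves, because the factors `T^(t+1) c_k / (T^t c_k)^2` tend to zero along the tail.
Hence the recurrence holds from the last pair of zeros on and the characteristic roots are real and
positive; this, or a second pair of zeros in the periodic case, is a certificate.  If `K r = 0` then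
`T (T c)` has finite support and project DF (finite supports) applies.  That a given P-recursive sequence
satisfies a constant coefficient recurrence from some point on is certified by finitely many values.
-/

set_option autoImplicit false

namespace Pool.Agent.Results.MP_d49380_lc.OrderThreeDecidable

open Pool.Agent.Helper4.IL

/-- One algorithm `g` (a computable function, possibly not total): its answers are correct, and it halts
whenever the sequence has infinite support and satisfies, from some point on, a linear recurrence of order
three with constant coefficients. -/
theorem result : ∃ g : Inp →. Bool, Partrec g ∧ ∀ x : Inp, Std x → ∀ a : ℕ → ℚ, Sol x a →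
    (∀ β ∈ g x, (β = true ↔ InfLC a)) ∧
    ((∀ N, ∃ n, N ≤ n ∧ a n ≠ 0) →
      (∃ (N : ℕ) (p q r : ℚ), ∀ n, N ≤ n → a (n + 3) = p * a (n + 2) + q * a (n + 1) + r * a n) →
      (g x).Dom) := by
  obtain ⟨g, hg, h⟩ := Pool.Agent.Helper6.O3.o3_all
  exact ⟨g, hg, fun x hx a ha => ⟨(h x hx a ha).1, fun _ hr => (h x hx a ha).2.1 hr⟩⟩

end Pool.Agent.Results.MP_d49380_lc.OrderThreeDecidable
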