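import Pool.Agent.Helper4.IL.Uni

/-!
# Infinite log-concavity of P-recursive sequences is at least as hard as the Positivity Problem

`Inp`: the inputs of the problem (lists of integer coefficients of the polynomials `p_0, ..., p_d`, and
the initial values).  `Std x`: `d` initial values and `p_d(n) ≠ 0` for all `n`.  `Sol x a`: the sequence
`a` satisfies the recurrence and has the given initial values.  `CF x`: the coefficients are constants
(C-finite sequences).  `LC`: the log-concavity operator.  `InfLC a`: all iterates of `a` are nonnegative.
-/

set_option autoImplicit false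

namespace Pool.Agent.Results.MP_d49380_lc.PositivityHard

open Pool.Agent.Helper4.IL

/-- The Positivity Problem for P-recursive sequences is many-one reducible to the infinite log-concavity
of P-recursive sequences, by a reduction `g` which maps C-finite sequences to C-finite sequences whose
iterates number `0, ..., K` are nonnegative (whether the iterates number `K + 1, ...` are nonnegative
is then the question). -/
theorem result (K : ℕ) : ∃ g : Inp → Inp, Computable g ∧ ∀ x : Inp, Std x →
    Std (g x) ∧ ∃ a b : ℕ → ℚ, (∀ a', Sol x a' ↔ a' = a) ∧ (∀ b', Sol (g x) b' ↔ b' = b) ∧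
      (InfLC b ↔ ∀ n, 0 ≤ a n) ∧ (CF x → CF (g x) ∧ ∀ i ≤ K, ∀ n, 0 ≤ (LC^[i] b) n) :=
  ⟨redU K, (primrec_redU K).to_comp, fun _ hx => redU_spec K hx⟩

end Pool.Agent.Results.MP_d49380_lc.PositivityHard
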